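import Pool.Agent.W443.J5.Stms

/-! J5-P1: homogeneous polynomials with zero Jacobian are proportional. -/

set_option autoImplicit false

open MvPolynomial Pool.Agent.H938R2.JC

namespace Pool.Agent.W215.J5

universe u

theorem euler {k : Type u} [Field k] (H : MvPolynomial (Fin 2) k) (w0 w1 D : ℤ)
    (h : ∀ m, coeff m H ≠ 0 → w0 * (m 0 : ℤ) + w1 * (m 1 : ℤ) = D) :
    C (w0 : k) * (X 0 * pderiv 0 H) + C (w1 : k) * (X 1 * pderiv 1 H) = C (D : k) * H := by
  ext m
  rw [coeff_add, coeff_C_mul, coeff_C_mul, coeff_C_mul, coeff_X_mul_pderiv, coeff_X_mul_pderiv]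
  by_cases hm : coeff m H = 0
  · rw [hm]; ring
  · have h1 := h m hm
    have h2 : (w0 : k) * ((m 0 : ℕ) : k) + (w1 : k) * ((m 1 : ℕ) : k) = (D : k) := by
      rw [← h1]
      push_cast
      ring
    rw [← h2]
    ring

theorem p1 : Pool.Agent.W443.J5.S_P1.{u} := by
  intro k _ _ F G w0 w1 D hD hF hG hJ hG0
  have eF := euler F w0 w1 D hF
  have eG := euler G w0 w1 D hG
  have hJ' : pderiv 0 F * pderiv 1 G - pderiv 1 F * pderiv 0 G = 0 := hJ
  have hDk : (C (D : k) : MvPolynomial (Fin 2) k) ≠ 0 := by
    rw [Ne, C_eq_zero]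
    exact_mod_cast hD
  have h0 : F * pderiv 0 G = G * pderiv 0 F := by
    apply mul_left_cancel₀ hDk
    linear_combination (-pderiv 0 G) * eF + pderiv 0 F * eG - C (w1 : k) * X 1 * hJ'
  have h1 : F * pderiv 1 G = G * pderiv 1 F := by
    apply mul_left_cancel₀ hDk
    linear_combination (-pderiv 1 G) * eF + pderiv 1 F * eG + C (w0 : k) * X 0 * hJ'
  let o : MonomialOrder (Fin 2) := MonomialOrder.lex
  let b := o.degree G
  have hb : coeff b G ≠ 0 := o.coeff_degree_ne_zero_iff.mpr hG0
  let c : k := coeff b F / coeff b G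
  let H := F - C c * G
  have hHb : coeff b H = 0 := by
    simp only [H, c]
    rw [coeff_sub, coeff_C_mul, div_mul_cancel₀ _ hb, sub_self]
  have hHi : ∀ i, H * pderiv i G = G * pderiv i H := by
    intro i
    have e1 : pderiv i H = pderiv i F - C c * pderiv i G := by
      simp only [H]
      rw [map_sub, pderiv_C_mul]
    rw [e1]
    simp only [H]
    fin_cases i
    · simp only [Fin.zero_eta, Fin.isValue]
      linear_combination h0
    · simp only [Fin.mk_one, Fin.isValue]
      linear_combination h1
  by_cases hH : H = 0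
  · exact ⟨c, sub_eq_zero.mp hH⟩
  · exfalso
    let a := o.degree H
    have ha : coeff a H ≠ 0 := o.coeff_degree_ne_zero_iff.mpr hH
    have hdeg : ∀ (P : MvPolynomial (Fin 2) k) (i : Fin 2),
        o.toSyn (o.degree (X i * pderiv i P)) ≤ o.toSyn (o.degree P) := by
      intro P i
      apply o.degree_le_degree_of_support_subset
      intro m hm
      rw [mem_support_iff, coeff_X_mul_pderiv] at hm
      rw [mem_support_iff]
      exact right_ne_zero_of_mul hm
    have key : ∀ i : Fin 2, a i = b i := by
      intro i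
      have e1 : (X i * pderiv i H) * G = H * (X i * pderiv i G) := by
        linear_combination (-X i) * hHi i
      have e2 : coeff (a + b) ((X i * pderiv i H) * G) = ((a i : ℕ) : k) * coeff a H * coeff b G := by
        rw [o.coeff_mul_of_add_of_degree_le (hdeg H i) le_rfl, coeff_X_mul_pderiv]
      have e3 : coeff (a + b) (H * (X i * pderiv i G)) =
          coeff a H * (((b i : ℕ) : k) * coeff b G) := by
        rw [o.coeff_mul_of_add_of_degree_le le_rfl (hdeg G i), coeff_X_mul_pderiv]
      rw [e1, e3] at e2
      have e4 : (((b i : ℕ) : k) - ((a i : ℕ) : k)) * (coeff a H * coeff b G) = 0 := by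
        linear_combination e2
      rcases mul_eq_zero.mp e4 with h | h
      · have h2 := sub_eq_zero.mp h
        exact_mod_cast h2.symm
      · exact absurd h (mul_ne_zero ha hb)
    have hab : a = b := by
      ext i
      exact key i
    rw [hab] at ha
    exact ha hHb

end Pool.Agent.W215.J5
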